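import Pool.Agent.Helper6_Eng.Stmts

/-!
# Squad ENG, module TFE: the group `C_P : ⟨σ²⟩` inside `Sp(2^(t+1), 2)`.
-/

set_option autoImplicit false

namespace Pool.Agent.Eng.H7

open Pool.Agent.Eng

local instance fact2 : Fact (Nat.Prime 2) := ⟨Nat.prime_two⟩

/-- The field. -/
abbrev KK (t : ℕ) : Type := GaloisField 2 (2 ^ (t + 1))

/-- The Frobenius automorphism. -/
noncomputable def fr (t : ℕ) : KK t ≃ₐ[ZMod 2] KK t :=
  FiniteField.frobeniusAlgEquivOfAlgebraic (ZMod 2) (KK t)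

theorem fr_apply (t : ℕ) (x : KK t) : fr t x = x ^ 2 := by
  have := congrFun (FiniteField.coe_frobeniusAlgEquivOfAlgebraic (ZMod 2) (KK t)) x
  rw [ZMod.card] at this
  exact this

theorem fr_pow_apply (t k : ℕ) (x : KK t) : (fr t ^ k) x = x ^ (2 ^ k) := by
  induction k generalizing x with
  | zero => simp
  | succ k ih =>
    rw [pow_succ (fr t) k, AlgEquiv.mul_apply, fr_apply, ih, ← pow_mul, ← pow_succ' 2 k]

theorem card_KK (t : ℕ) : Nat.card (KK t) = 2 ^ (2 ^ (t + 1)) :=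
  GaloisField.card 2 _ (by positivity)

theorem finrank_KK (t : ℕ) : Module.finrank (ZMod 2) (KK t) = 2 * 2 ^ t := by
  rw [GaloisField.finrank 2 (by positivity), pow_succ']

/-- The alternating form. -/
noncomputable def om (t : ℕ) : KK t →ₗ[ZMod 2] KK t →ₗ[ZMod 2] ZMod 2 :=
  (Algebra.traceForm (ZMod 2) (KK t)).compl₂ (fr t ^ (2 ^ t)).toLinearMap

theorem om_apply (t : ℕ) (x y : KK t) :
    om t x y = Algebra.trace (ZMod 2) (KK t) (x * y ^ (2 ^ (2 ^ t))) := by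
  rw [← fr_pow_apply]
  rfl

theorem pow_QQ (t : ℕ) (x : KK t) : (x ^ (2 ^ (2 ^ t))) ^ (2 ^ (2 ^ t)) = x := by
  let _ := Fintype.ofFinite (KK t)
  rw [← pow_mul, ← pow_add]
  have h1 := FiniteField.pow_card x
  rw [← Nat.card_eq_fintype_card, card_KK] at h1
  have h2 : 2 ^ t + 2 ^ t = 2 ^ (t + 1) := by rw [pow_succ]; ring
  rw [h2]
  exact h1

theorem om_self (t : ℕ) (x : KK t) : om t x x = 0 := by
  rw [om_apply]
  set s : KK t := x * x ^ (2 ^ (2 ^ t)) with hs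
  have hsQ : s ^ (2 ^ (2 ^ t)) = s := by
    rw [hs, mul_pow, pow_QQ, mul_comm]
  have h1 := FiniteField.algebraMap_trace_eq_sum_pow (ZMod 2) (KK t) s
  rw [finrank_KK, two_mul, Finset.sum_range_add, Nat.card_zmod, ← Finset.sum_add_distrib] at h1
  have h2 : ∀ i, s ^ 2 ^ i + s ^ 2 ^ (2 ^ t + i) = 0 := by
    intro i
    rw [pow_add 2 (2 ^ t) i, pow_mul, hsQ]
    exact CharTwo.add_self_eq_zero _
  rw [Finset.sum_eq_zero (fun i _ => h2 i)] at h1
  exact (map_eq_zero_iff _ (algebraMap (ZMod 2) (KK t)).injective).1 h1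

theorem om_symp (t : ℕ) : IsSymp (om t) := by
  refine ⟨om_self t, ?_⟩
  intro u hu
  have h1 := (traceForm_nondegenerate (ZMod 2) (KK t)).1 u
  apply h1
  intro z
  have h2 := hu (z ^ (2 ^ (2 ^ t)))
  rw [om_apply, pow_QQ] at h2
  exact h2

/-- Multiplication by a unit. -/
noncomputable def mu (t : ℕ) : (KK t)ˣ →* (KK t ≃ₗ[ZMod 2] KK t) :=
  DistribMulAction.toModuleAut (ZMod 2) (KK t)

theorem mu_apply (t : ℕ) (c : (KK t)ˣ) (x : KK t) : mu t c x = (c : KK t) * x := rfl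

/-- The Frobenius as a linear equivalence. -/
noncomputable def frl (t : ℕ) : KK t ≃ₗ[ZMod 2] KK t := (fr t ^ 2).toLinearEquiv

theorem frl_apply (t : ℕ) (x : KK t) : frl t x = x ^ 4 := by
  have := fr_pow_apply t 2 x
  exact this

theorem mu_mem (t : ℕ) (c : (KK t)ˣ) (hc : (c : KK t) ^ (2 ^ (2 ^ t) + 1) = 1) :
    mu t c ∈ SpV (om t) := by
  intro u v
  rw [om_apply, om_apply, mu_apply, mu_apply, mul_pow]
  have : (c : KK t) * u * ((c : KK t) ^ 2 ^ 2 ^ t * v ^ 2 ^ 2 ^ t) =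
      (c : KK t) ^ (2 ^ (2 ^ t) + 1) * (u * v ^ 2 ^ 2 ^ t) := by
    rw [pow_succ (c : KK t) (2 ^ (2 ^ t))]; ring
  rw [this, hc, one_mul]

theorem frl_mem (t : ℕ) : frl t ∈ SpV (om t) := by
  intro u v
  rw [om_apply, om_apply, frl_apply, frl_apply]
  have : u ^ 4 * (v ^ 4) ^ 2 ^ 2 ^ t = (fr t ^ 2) (u * v ^ 2 ^ 2 ^ t) := by
    rw [fr_pow_apply, mul_pow, ← pow_mul, ← pow_mul, mul_comm 4]
    norm_num
  rw [this]
  exact Algebra.trace_eq_of_algEquiv (fr t ^ 2) _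

theorem exists_zeta (t P : ℕ) (hP : P.Prime) (hd : P ∣ 2 ^ (2 ^ t) + 1) :
    ∃ z : (KK t)ˣ, orderOf z = P := by
  have : Fact P.Prime := ⟨hP⟩
  apply exists_prime_orderOf_dvd_card' P
  rw [Nat.card_units, card_KK]
  have h1 : 2 ^ (2 ^ (t + 1)) - 1 = (2 ^ (2 ^ t) + 1) * (2 ^ (2 ^ t) - 1) := by
    rw [pow_succ, pow_mul]
    have := Nat.sq_sub_sq (2 ^ (2 ^ t)) 1
    simpa using this
  rw [h1]
  exact Dvd.dvd.mul_right hd _

/-- Multiplication by 4. -/
def T4 (P : ℕ) : AddMonoid.End (ZMod P) := AddMonoidHom.mulLeft (4 : ZMod P)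

theorem T4_apply (P : ℕ) (x : ZMod P) : T4 P x = 4 * x := rfl

theorem T4_sub (P : ℕ) (x : ZMod P) : (T4 P - 1) x = 3 * x := by
  change (4 : ZMod P) * x - x = 3 * x
  ring

theorem T4_sub_pow (P k : ℕ) : ((T4 P - 1) ^ k) 1 = 3 ^ k := by
  induction k with
  | zero => rw [pow_zero, pow_zero]; rfl
  | succ k ih =>
    rw [pow_succ']
    change (T4 P - 1) (((T4 P - 1) ^ k) 1) = _
    rw [ih, T4_sub, pow_succ']

theorem tfe (hAb : SpAbStmt) : TfeStmt := by
  intro t P N ht hP hPd hN d hd hL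
  apply hN d hd
  have : Fact P.Prime := ⟨hP⟩
  obtain ⟨z, hz⟩ := exists_zeta t P hP hPd
  have hz0 : (zmultiplesHom (Additive (KK t)ˣ) (Additive.ofMul z)) (P : ℤ) = 0 := by
    rw [zmultiplesHom_apply, ← ofMul_zpow, zpow_natCast, ← hz, pow_orderOf_eq_one]
    rfl
  let g : ZMod P →+ Additive (KK t)ˣ := ZMod.lift P ⟨zmultiplesHom _ (Additive.ofMul z), hz0⟩
  have hg : ∀ k : ℕ, g (k : ZMod P) = Additive.ofMul (z ^ k) := by
    intro k
    have := ZMod.lift_coe P ⟨zmultiplesHom (Additive (KK t)ˣ) (Additive.ofMul z), hz0⟩ (k : ℤ)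
    rw [Int.cast_natCast] at this
    change (ZMod.lift P _) (k : ZMod P) = _
    rw [this, zmultiplesHom_apply, natCast_zsmul, ← ofMul_pow]
  let f : Multiplicative (ZMod P) →* (KK t ≃ₗ[ZMod 2] KK t) :=
    (mu t).comp (AddMonoidHom.toMultiplicativeLeft g)
  have hf : ∀ k : ℕ, f (Multiplicative.ofAdd (k : ZMod P)) = mu t (z ^ k) := by
    intro k
    change mu t (Additive.toMul (g (k : ZMod P))) = _
    rw [hg]
    rfl
  have hzp : z ^ P = 1 := by rw [← hz, pow_orderOf_eq_one]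
  have hzQ : z ^ (2 ^ (2 ^ t) + 1) = 1 := by
    obtain ⟨c, hc⟩ := hPd
    rw [hc, pow_mul, hzp, one_pow]
  obtain ⟨r, hr⟩ := hAb (ZMod 2) (KK t) (om t) (2 ^ t) (om_symp t) (finrank_KK t) (ZMod P) f
    (frl t)⁻¹ (T4 P)
    (by
      intro m
      obtain ⟨k, hk⟩ := ZMod.natCast_zmod_surjective (Multiplicative.toAdd m)
      have : m = Multiplicative.ofAdd (k : ZMod P) := by rw [hk]; rfl
      rw [this, hf]
      apply mu_mem
      rw [← Units.val_pow_eq_pow_val, pow_right_comm, hzQ, one_pow, Units.val_one])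
    ((SpV (om t)).inv_mem (frl_mem t))
    (by
      intro m hm
      obtain ⟨k, rfl⟩ := ZMod.natCast_zmod_surjective m
      rw [hf] at hm
      obtain ⟨c, hc⟩ := hm
      have h1 := hc 1
      rw [mu_apply, mul_one] at h1
      have hc1 : c = 1 := by
        rcases (by decide : ∀ c : ZMod 2, c = 0 ∨ c = 1) c with h | h
        · rw [h, zero_smul] at h1
          exact absurd h1 (Units.ne_zero _)
        · exact h
      rw [hc1, one_smul] at h1
      have h2 : z ^ k = 1 := Units.ext h1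
      have h3 := orderOf_dvd_of_pow_eq_one h2
      rw [hz] at h3
      exact (ZMod.natCast_eq_zero_iff _ _).2 h3)
    (by
      intro m
      obtain ⟨k, rfl⟩ := ZMod.natCast_zmod_surjective m
      have h4 : T4 P (k : ZMod P) = ((4 * k : ℕ) : ZMod P) := by
        rw [T4_apply]
        push_cast
        rfl
      rw [h4, hf, hf, inv_inv, mul_inv_eq_iff_eq_mul]
      ext x
      change frl t (mu t (z ^ k) x) = mu t (z ^ (4 * k)) (frl t x)
      rw [frl_apply, frl_apply, mu_apply, mu_apply, mul_pow, ← Units.val_pow_eq_pow_val,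
        ← pow_mul, mul_comm k 4])
    d hL
  have h6 := congrArg (fun T : AddMonoid.End (ZMod P) => T 1) hr
  rw [T4_sub_pow, T4_sub_pow, pow_add] at h6
  have h3 : (3 : ZMod P) ≠ 0 := by
    intro h0
    have h7 : ((3 : ℕ) : ZMod P) = 0 := by exact_mod_cast h0
    rw [ZMod.natCast_eq_zero_iff] at h7
    have h8 : P = 3 := (Nat.prime_dvd_prime_iff_eq hP Nat.prime_three).1 h7
    rw [h8] at hPd
    obtain ⟨s, rfl⟩ : ∃ s, t = s + 1 := ⟨t - 1, by omega⟩
    have h9 : 2 ^ 2 ^ (s + 1) = 4 ^ (2 ^ s) := by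
      rw [pow_succ' 2 s, pow_mul]
      norm_num
    rw [h9] at hPd
    have h10 : (4 ^ (2 ^ s) + 1) % 3 = 2 := by
      rw [Nat.add_mod, Nat.pow_mod]
      norm_num
    omega
  have h7 : (3 : ZMod P) ^ r ≠ 0 := pow_ne_zero _ h3
  exact mul_left_cancel₀ h7 (by rw [h6, mul_one])

end Pool.Agent.Eng.H7
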