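import Pool.Agent.Helper6_Eng.Stmts

/-!
# Squad ENG, module DGL: the Levi subgroup `GL(n,q)` of `Sp(2n,q)` acting on symmetric matrices.
-/

set_option autoImplicit false

namespace Pool.Agent.Eng.H7

open Matrix Pool.Agent.Eng

variable {F : Type} [Field F] {n : ℕ}

/-- The symmetric matrices. -/
def Sym (n : ℕ) (F : Type) [Field F] : Submodule F (Matrix (Fin n) (Fin n) F) where
  carrier := {S | Sᵀ = S}
  add_mem' := by
    intro a b ha hb
    simp only [Set.mem_ofPred_eq] at ha hb ⊢
    rw [Matrix.transpose_add, ha, hb]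
  zero_mem' := by simp
  smul_mem' := by
    intro c a ha
    simp only [Set.mem_ofPred_eq] at ha ⊢
    rw [Matrix.transpose_smul, ha]

theorem mem_sym {S : Matrix (Fin n) (Fin n) F} : S ∈ Sym n F ↔ Sᵀ = S := Iff.rfl

/-- The unipotent block matrices. -/
def uni (S : Matrix (Fin n) (Fin n) F) : Matrix (Fin n ⊕ Fin n) (Fin n ⊕ Fin n) F :=
  fromBlocks 1 S 0 1

theorem uni_mem {S : Matrix (Fin n) (Fin n) F} (hS : Sᵀ = S) :
    uni S ∈ symplecticGroup (Fin n) F := by
  rw [SymplecticGroup.mem_iff]
  simp [uni, Matrix.J, fromBlocks_multiply, fromBlocks_transpose, hS]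

theorem uni_mul (S T : Matrix (Fin n) (Fin n) F) : uni S * uni T = uni (S + T) := by
  simp [uni, fromBlocks_multiply, add_comm]

theorem uni_zero : uni (0 : Matrix (Fin n) (Fin n) F) = 1 := by
  simp [uni]

/-- The homomorphism `S ↦ (1, S; 0, 1)`. -/
def fS : Multiplicative (Sym n F) →* Sp n F where
  toFun S := ⟨uni (Multiplicative.toAdd S).1, uni_mem (Multiplicative.toAdd S).2⟩
  map_one' := by
    apply Subtype.ext
    exact uni_zero
  map_mul' := by
    intro a b
    apply Subtype.ext
    exact (uni_mul _ _).symm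

/-- The Levi matrix. -/
def lev (g : GL (Fin n) F) : Matrix (Fin n ⊕ Fin n) (Fin n ⊕ Fin n) F :=
  fromBlocks (g : Matrix (Fin n) (Fin n) F) 0 0 (((g⁻¹ : GL (Fin n) F) : Matrix (Fin n) (Fin n) F)ᵀ)

theorem gg (g : GL (Fin n) F) : (g : Matrix (Fin n) (Fin n) F) * ((g⁻¹ : GL (Fin n) F) : Matrix (Fin n) (Fin n) F) = 1 := by
  rw [← Units.val_mul]; simp

theorem gg' (g : GL (Fin n) F) : ((g⁻¹ : GL (Fin n) F) : Matrix (Fin n) (Fin n) F) * (g : Matrix (Fin n) (Fin n) F) = 1 := by
  rw [← Units.val_mul]; simp

theorem lev_mem (g : GL (Fin n) F) : lev g ∈ symplecticGroup (Fin n) F := by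
  rw [SymplecticGroup.mem_iff]
  simp only [lev, Matrix.J, fromBlocks_multiply, fromBlocks_transpose, transpose_transpose,
    transpose_zero, mul_zero, zero_mul, add_zero, zero_add, mul_one, mul_neg, neg_mul,
    neg_zero]
  rw [gg, ← transpose_mul, gg, transpose_one]

/-- The action on symmetric matrices. -/
def act (g : GL (Fin n) F) : AddMonoid.End (Sym n F) where
  toFun S := ⟨(g : Matrix (Fin n) (Fin n) F) * S.1 * (g : Matrix (Fin n) (Fin n) F)ᵀ, by
    rw [mem_sym]
    rw [transpose_mul, transpose_mul, transpose_transpose, mem_sym.1 S.2, Matrix.mul_assoc]⟩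
  map_zero' := by
    apply Subtype.ext
    simp
  map_add' := by
    intro a b
    apply Subtype.ext
    simp [mul_add, add_mul]

theorem act_coe (g : GL (Fin n) F) (S : Sym n F) :
    ((act g S : Sym n F) : Matrix (Fin n) (Fin n) F) =
      (g : Matrix (Fin n) (Fin n) F) * S.1 * (g : Matrix (Fin n) (Fin n) F)ᵀ := rfl

theorem act_one : act (1 : GL (Fin n) F) = 1 := by
  ext S : 1
  apply Subtype.ext
  rw [act_coe]
  simp

theorem act_mul (g h : GL (Fin n) F) : act (g * h) = act g * act h := by
  ext S : 1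
  apply Subtype.ext
  rw [act_coe]
  change _ = ((act g (act h S) : Sym n F) : Matrix (Fin n) (Fin n) F)
  rw [act_coe, act_coe, Units.val_mul, transpose_mul]
  simp only [Matrix.mul_assoc]

theorem act_pow (g : GL (Fin n) F) (k : ℕ) : act (g ^ k) = act g ^ k := by
  induction k with
  | zero => rw [pow_zero, pow_zero, act_one]
  | succ k ih => rw [pow_succ, pow_succ, act_mul, ih]

/-- The only matrices acting trivially are `1` and `-1`. -/
theorem act_eq_one {h : GL (Fin n) F} (hn : 1 ≤ n) (hh : act h = 1) :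
    h = 1 ∨ h = -1 := by
  have key : ∀ S : Matrix (Fin n) (Fin n) F, Sᵀ = S →
      (h : Matrix (Fin n) (Fin n) F) * S * (h : Matrix (Fin n) (Fin n) F)ᵀ = S := by
    intro S hS
    have := congrArg (fun t : AddMonoid.End (Sym n F) => ((t ⟨S, hS⟩ : Sym n F) : Matrix (Fin n) (Fin n) F)) hh
    exact this
  set H : Matrix (Fin n) (Fin n) F := (h : Matrix (Fin n) (Fin n) F) with hH
  -- entries
  have k1 : ∀ i a b, H a i * H b i = if a = i ∧ b = i then 1 else 0 := by
    intro i a b
    have := key (Matrix.single i i 1) (by simp)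
    have h2 := congrFun (congrFun this a) b
    rw [Matrix.mul_apply] at h2
    simp only [Matrix.mul_apply, Matrix.single_apply, Matrix.transpose_apply] at h2
    rw [Finset.sum_eq_single i] at h2
    · rw [Finset.sum_eq_single i] at h2
      · simpa [eq_comm] using h2
      · intro c _ hc
        simp [hc.symm]
      · simp
    · intro c _ hc
      rw [Finset.sum_eq_zero, zero_mul]
      intro x _
      simp [hc.symm]
    · simp
  have k2 : ∀ i j, i ≠ j → H i i * H j j + H i j * H j i = 1 := by
    intro i j hij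
    have := key (Matrix.single i j 1 + Matrix.single j i 1) (by simp [add_comm])
    have h2 := congrFun (congrFun this i) j
    rw [mul_add, add_mul, Matrix.add_apply, Matrix.add_apply] at h2
    have e1 : ∀ p q : Fin n, (H * Matrix.single p q (1 : F) * Hᵀ) i j = H i p * H j q := by
      intro p q
      simp only [Matrix.mul_apply, Matrix.single_apply, Matrix.transpose_apply]
      rw [Finset.sum_eq_single q]
      · rw [Finset.sum_eq_single p]
        · simp
        · intro c _ hc
          simp [hc.symm]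
        · simp
      · intro c _ hc
        rw [Finset.sum_eq_zero, zero_mul]
        intro x _
        simp [hc.symm]
      · simp
    rw [e1, e1] at h2
    rw [h2]
    simp [hij, hij.symm]
  have off : ∀ a i, a ≠ i → H a i = 0 := by
    intro a i hai
    have := k1 i a a
    simp only [hai, and_self, if_false] at this
    exact mul_self_eq_zero.1 this
  have dd : ∀ i, H i i * H i i = 1 := by
    intro i
    have := k1 i i i
    simpa using this
  have i0 : Fin n := ⟨0, by omega⟩
  have all : ∀ i, H i i = H i0 i0 := by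
    intro i
    by_cases hi : i = i0
    · rw [hi]
    · have h3 := k2 i i0 hi
      rw [off i i0 hi, zero_mul, add_zero] at h3
      have h4 := dd i0
      have h5 : H i0 i0 ≠ 0 := by
        intro h0
        rw [h0] at h4
        simp at h4
      have : H i i * H i0 i0 = H i0 i0 * H i0 i0 := by rw [h3, h4]
      exact mul_right_cancel₀ h5 this
  have sc : H = (H i0 i0) • (1 : Matrix (Fin n) (Fin n) F) := by
    ext a b
    rw [Matrix.smul_apply, Matrix.one_apply]
    by_cases hab : a = b
    · subst hab
      simp [all a]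
    · simp [hab, off a b hab]
  have h1 : H i0 i0 = 1 ∨ H i0 i0 = -1 := mul_self_eq_one_iff.1 (dd i0)
  rcases h1 with h1 | h1
  · left
    apply Units.ext
    rw [← hH, sc, h1, one_smul]
    rfl
  · right
    apply Units.ext
    rw [← hH, sc, h1]
    simp

theorem dgl (hGH : GHStmt) (hC : SpCenterMatStmt) : DglStmt := by
  intro F _ _ n e h2 hn g hge hco d hL hd
  have : Finite (Sym n F) := inferInstance
  have hcard : Nat.Coprime e (Nat.card (Sym n F)) := by
    rw [Module.natCard_eq_pow_finrank (K := F)]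
    exact hco.pow_right _
  have hz : ∀ m : Sym n F, fS (Multiplicative.ofAdd m) ∈ Subgroup.center (Sp n F) → m = 0 := by
    intro m hm
    apply Subtype.ext
    ext a b
    have h3 := (hC F n _).1 hm
    have h4 : ((fS (Multiplicative.ofAdd m) : Sp n F) : Matrix (Fin n ⊕ Fin n) (Fin n ⊕ Fin n) F)
        (Sum.inl a) (Sum.inr b) = m.1 a b := rfl
    rw [← h4]
    rcases h3 with h3 | h3
    · rw [h3]; simp
    · rw [h3]; simp
  have hy : ∀ m : Sym n F, (⟨lev g, lev_mem g⟩ : Sp n F)⁻¹ * fS (Multiplicative.ofAdd m) *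
      ⟨lev g, lev_mem g⟩ = fS (Multiplicative.ofAdd (act g⁻¹ m)) := by
    intro m
    rw [mul_assoc, inv_mul_eq_iff_eq_mul]
    apply Subtype.ext
    change uni m.1 * lev g = lev g * uni ((act g⁻¹ m : Sym n F) : Matrix (Fin n) (Fin n) F)
    rw [act_coe]
    simp only [uni, lev, fromBlocks_multiply, mul_zero, zero_mul, add_zero, zero_add, mul_one,
      one_mul]
    congr 1
    rw [← Matrix.mul_assoc, ← Matrix.mul_assoc, gg, one_mul]
  have hT : (act g⁻¹ : AddMonoid.End (Sym n F)) ^ e = 1 := by
    rw [← act_pow, inv_pow, hge, inv_one, act_one]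
  have := (hGH (Sp n F) (Subgroup.center (Sp n F)) (Sym n F) fS ⟨lev g, lev_mem g⟩ (act g⁻¹) e
    hz hy hT hcard d hL).2 hd
  rw [← act_pow] at this
  rcases act_eq_one hn this with h5 | h5
  · left
    rw [inv_pow, inv_eq_one] at h5
    exact h5
  · right
    rw [inv_pow] at h5
    have h6 : g ^ d * (g ^ d)⁻¹ = 1 := mul_inv_cancel _
    rw [h5] at h6
    rw [mul_neg, mul_one] at h6
    rw [← h6]
    simp

end Pool.Agent.Eng.H7
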